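import Pool.Agent.helper55.NM.Spec

set_option autoImplicit false

namespace Pool.Agent.helper26.NM

open Pool.Agent.NM Finset Nat

theorem GG2_pair (x y ρ ε R : ℝ) (hε : 0 < ε) (h1 : 1 / 3 + ε ≤ ρ) (h2 : ρ ≤ 1 / 2 - ε)
    (hR0 : 0 ≤ R) (hR1 : R ≤ 1 - 2 * ε) (hx1 : x ≤ 1) (hy1 : y ≤ 1)
    (h : x = 0 ∨ y = 0 ∨ x ≤ R ^ 2) : (1 - ρ) * x + ρ * y ≤ 1 - ε := by
  have hε2 : ε ≤ 1 / 12 := by linarith
  rcases h with h | h | h
  · rw [h]
    nlinarith
  · rw [h]
    nlinarith
  · have h3 : R ^ 2 ≤ (1 - 2 * ε) ^ 2 := pow_le_pow_left₀ hR0 hR1 2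
    have h4 : (1 - ρ) * x ≤ (1 - ρ) * (1 - 2 * ε) ^ 2 :=
      mul_le_mul_of_nonneg_left (h.trans h3) (by linarith)
    have h5 : ρ * y ≤ ρ * 1 := mul_le_mul_of_nonneg_left hy1 (by linarith)
    have h6 : (1 - ρ) * (1 - 2 * ε) ^ 2 + ρ = (1 - 2 * ε) ^ 2 + ρ * (4 * ε - 4 * ε ^ 2) := by ring
    have h7 : ρ * (4 * ε - 4 * ε ^ 2) ≤ (1 / 2 - ε) * (4 * ε - 4 * ε ^ 2) :=
      mul_le_mul_of_nonneg_right h2 (by nlinarith)
    nlinarith [mul_pos hε hε, mul_pos (mul_pos hε hε) hε]

theorem GG2_two (x1 x2 x3 y1 y2 y3 ρ ε R : ℝ) (hε : 0 < ε) (h1 : 1 / 3 + ε ≤ ρ)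
    (h2 : ρ ≤ 1 / 2 - ε) (hR0 : 0 ≤ R) (hR1 : R ≤ 1 - 2 * ε)
    (ux1 : x1 ≤ 1) (ux2 : x2 ≤ 1) (ux3 : x3 ≤ 1) (uy1 : y1 ≤ 1) (uy2 : y2 ≤ 1) (uy3 : y3 ≤ 1)
    (a1 : x1 = 0 ∨ x3 = 0) (a2 : x2 = 0 ∨ x3 = 0) (b1 : y1 = 0 ∨ y3 = 0) (b2 : y2 = 0 ∨ y3 = 0)
    (c1 : x1 = 0 ∨ y1 = 0 ∨ x1 ≤ R ^ 2) (c2 : x2 = 0 ∨ y2 = 0 ∨ x2 ≤ R ^ 2) :
    ρ * (1 - ρ) ^ 2 * x1 + ρ * (1 - ρ) ^ 2 * x2 + ρ ^ 2 * (1 - ρ) * x3 + ρ ^ 2 * (1 - ρ) * y1 +
      ρ ^ 2 * (1 - ρ) * y2 + ρ ^ 3 * y3 ≤ (1 - ε) * (2 * ρ * (1 - ρ)) := by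
  have hε2 : ε ≤ 1 / 12 := by linarith
  have p1 := GG2_pair x1 y1 ρ ε R hε h1 h2 hR0 hR1 ux1 uy1 c1
  have p2 := GG2_pair x2 y2 ρ ε R hε h1 h2 hR0 hR1 ux2 uy2 c2
  have hρ : 0 < ρ := by linarith
  have hρ' : 0 < 1 - ρ := by linarith
  have hm : 0 < ρ * (1 - ρ) := mul_pos hρ hρ'
  by_cases hx : x3 = 0
  · by_cases hy : y3 = 0
    · rw [hx, hy]
      have e : ρ * (1 - ρ) ^ 2 * x1 + ρ * (1 - ρ) ^ 2 * x2 + ρ ^ 2 * (1 - ρ) * 0 +
          ρ ^ 2 * (1 - ρ) * y1 + ρ ^ 2 * (1 - ρ) * y2 + ρ ^ 3 * 0 =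
          ρ * (1 - ρ) * ((1 - ρ) * x1 + ρ * y1) + ρ * (1 - ρ) * ((1 - ρ) * x2 + ρ * y2) := by ring
      rw [e]
      have q1 := mul_le_mul_of_nonneg_left p1 hm.le
      have q2 := mul_le_mul_of_nonneg_left p2 hm.le
      linarith
    · have hy1 : y1 = 0 := b1.resolve_right hy
      have hy2 : y2 = 0 := b2.resolve_right hy
      rw [hx, hy1, hy2]
      have q1 : ρ * (1 - ρ) ^ 2 * x1 ≤ ρ * (1 - ρ) ^ 2 * 1 :=
        mul_le_mul_of_nonneg_left ux1 (by positivity)
      have q2 : ρ * (1 - ρ) ^ 2 * x2 ≤ ρ * (1 - ρ) ^ 2 * 1 :=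
        mul_le_mul_of_nonneg_left ux2 (by positivity)
      have q3 : ρ ^ 3 * y3 ≤ ρ ^ 3 * 1 := mul_le_mul_of_nonneg_left uy3 (by positivity)
      have q4 : ρ ^ 2 ≤ 2 * (1 - ρ) * (ρ - ε) := by nlinarith
      have q5 : ρ * ρ ^ 2 ≤ ρ * (2 * (1 - ρ) * (ρ - ε)) := mul_le_mul_of_nonneg_left q4 hρ.le
      nlinarith
  · have hx1 : x1 = 0 := a1.resolve_right hx
    have hx2 : x2 = 0 := a2.resolve_right hx
    have q0 : ρ ^ 2 * (1 - ρ) * x3 ≤ ρ ^ 2 * (1 - ρ) * 1 :=
      mul_le_mul_of_nonneg_left ux3 (by positivity)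
    by_cases hy : y3 = 0
    · rw [hx1, hx2, hy]
      have q1 : ρ ^ 2 * (1 - ρ) * y1 ≤ ρ ^ 2 * (1 - ρ) * 1 :=
        mul_le_mul_of_nonneg_left uy1 (by positivity)
      have q2 : ρ ^ 2 * (1 - ρ) * y2 ≤ ρ ^ 2 * (1 - ρ) * 1 :=
        mul_le_mul_of_nonneg_left uy2 (by positivity)
      have q3 : ρ * (1 - ρ) * (3 * ρ) ≤ ρ * (1 - ρ) * (2 * (1 - ε)) :=
        mul_le_mul_of_nonneg_left (by linarith) hm.le
      nlinarith
    · have hy1 : y1 = 0 := b1.resolve_right hy
      have hy2 : y2 = 0 := b2.resolve_right hy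
      rw [hx1, hx2, hy1, hy2]
      have q3 : ρ ^ 3 * y3 ≤ ρ ^ 3 * 1 := mul_le_mul_of_nonneg_left uy3 (by positivity)
      have q4 : ρ ≤ 2 * (1 - ρ) * (1 - ε) := by nlinarith
      have q5 : ρ * ρ ≤ ρ * (2 * (1 - ρ) * (1 - ε)) := mul_le_mul_of_nonneg_left q4 hρ.le
      nlinarith

/-- the weight without the powers of `ρ` -/
noncomputable def GG2_a {p : ℕ} (H : Finset (Finset (Fin p))) (d : Finset (Fin p) → ℕ) (R : ℝ)
    (I : Finset (Fin p)) : ℝ := if I ∈ H then R ^ d I else 0

section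
variable {p : ℕ} {S : Finset (Fin p)} {H : Finset (Finset (Fin p))} {d : Finset (Fin p) → ℕ} {R : ℝ}

theorem GG2_a1 (hR0 : 0 ≤ R) (hR1 : R ≤ 1) (I : Finset (Fin p)) : GG2_a H d R I ≤ 1 := by
  unfold GG2_a
  split_ifs
  · exact pow_le_one₀ hR0 hR1
  · exact zero_le_one

theorem GG2_aS (hH : Hyp p S H d) {I : Finset (Fin p)} (h : I ⊆ S) : GG2_a H d R I = 0 := by
  unfold GG2_a
  rw [if_neg]
  exact fun hI => hH.1 I hI h

theorem GG2_aa (hH : Hyp p S H d) {I₁ I₂ : Finset (Fin p)} (h : I₁ ∩ S = I₂ ∩ S) (h' : I₁ ⊂ I₂) :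
    GG2_a H d R I₁ = 0 ∨ GG2_a H d R I₂ = 0 := by
  unfold GG2_a
  by_cases h1 : I₁ ∈ H
  · by_cases h2 : I₂ ∈ H
    · exact absurd (hH.2.1 I₁ h1 I₂ h2 h h'.1) h'.ne
    · exact Or.inr (if_neg h2)
  · exact Or.inl (if_neg h1)

theorem GG2_ar (hH : Hyp p S H d) (hR0 : 0 ≤ R) (hR1 : R ≤ 1) {I₁ I₂ : Finset (Fin p)}
    (h' : I₁ ⊂ I₂) :
    GG2_a H d R I₁ = 0 ∨ GG2_a H d R I₂ = 0 ∨ GG2_a H d R I₁ ≤ R ^ 2 := by
  unfold GG2_a
  by_cases h1 : I₁ ∈ H
  · by_cases h2 : I₂ ∈ H
    · refine Or.inr (Or.inr ?_)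
      rw [if_pos h1]
      have := hH.2.2 I₁ h1 I₂ h2 h'
      exact pow_le_pow_of_le_one hR0 hR1 (by omega)
    · exact Or.inr (Or.inl (if_neg h2))
  · exact Or.inl (if_neg h1)

end

theorem GG2 : GG2_stmt := by
  intro p S H d ε ρ R hH hε h1 h2 hR0 hR1 hp hb
  have hε2 : ε ≤ 1 / 12 := by linarith
  have hR : R ≤ 1 := by linarith
  have hρ : 0 < ρ := by linarith
  have hρ' : 0 < 1 - ρ := by linarith
  set g : Finset (Fin p) → ℝ := fun I => ρ ^ I.card * (1 - ρ) ^ (p - I.card) * GG2_a H d R I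
    with hg
  have hsum : ∑ I ∈ H, ρ ^ I.card * (1 - ρ) ^ (p - I.card) * R ^ d I =
      ∑ I ∈ (univ : Finset (Fin p)).powerset, g I := by
    have : ∑ I ∈ H, ρ ^ I.card * (1 - ρ) ^ (p - I.card) * R ^ d I = ∑ I ∈ H, g I := by
      refine sum_congr rfl fun I hI => ?_
      rw [hg]
      show _ = ρ ^ I.card * (1 - ρ) ^ (p - I.card) * GG2_a H d R I
      unfold GG2_a
      rw [if_pos hI]
    rw [this]
    refine sum_subset (fun I _ => mem_powerset.2 (subset_univ I)) ?_
    intro I _ hI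
    rw [hg]
    show ρ ^ I.card * (1 - ρ) ^ (p - I.card) * GG2_a H d R I = 0
    unfold GG2_a
    rw [if_neg hI, mul_zero]
  rw [hsum]
  have hc : (univ \ S).card + S.card = p := by
    rw [card_sdiff_add_card_eq_card (subset_univ S)]
    simp
  have hSne : S.Nonempty := by
    rw [← card_pos]
    omega
  obtain ⟨e, he⟩ := hSne
  have heS : insert e (S.erase e) = S := insert_erase he
  have hgS : ∀ I ⊆ S, g I = 0 := by
    intro I hI
    show ρ ^ I.card * (1 - ρ) ^ (p - I.card) * GG2_a H d R I = 0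
    rw [GG2_aS hH hI, mul_zero]
  have hpos : 0 ≤ (1 - ε) * (2 * ρ * (1 - ρ)) :=
    mul_nonneg (by linarith) (by positivity)
  have hcardE : (S.erase e).card = S.card - 1 := card_erase_of_mem he
  interval_cases hn : (univ \ S).card
  · -- no big element
    have hS : S = univ := by
      have := card_eq_zero.1 hn
      exact univ_subset_iff.1 (sdiff_eq_empty_iff_subset.1 this)
    refine le_trans (le_of_eq (sum_eq_zero fun I _ => hgS I ?_)) hpos
    rw [hS]
    exact subset_univ I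
  · -- one big element
    obtain ⟨u, hu⟩ := card_eq_one.1 hn
    have huS : u ∉ S := by
      have : u ∈ univ \ S := by rw [hu]; exact mem_singleton_self u
      exact (mem_sdiff.1 this).2
    have hU : insert e (insert u (S.erase e)) = univ := by
      rw [Finset.insert_comm, heS]
      ext x
      simp only [mem_insert, mem_univ, iff_true]
      by_cases hx : x ∈ S
      · exact Or.inr hx
      · left
        have : x ∈ univ \ S := mem_sdiff.2 ⟨mem_univ x, hx⟩
        rw [hu] at this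
        exact mem_singleton.1 this
    have hue : u ≠ e := fun h => huS (h ▸ he)
    have n1 : u ∉ S.erase e := fun h => huS (mem_of_mem_erase h)
    have n2 : e ∉ insert u (S.erase e) := by
      rw [mem_insert]
      rintro (h | h)
      · exact hue h.symm
      · exact notMem_erase e S h
    rw [← hU, sum_powerset_insert n2, sum_powerset_insert n1, sum_powerset_insert n1,
      ← sum_add_distrib, ← sum_add_distrib, ← sum_add_distrib]
    have hbin : ∑ T ∈ (S.erase e).powerset, ρ ^ T.card * (1 - ρ) ^ ((S.erase e).card - T.card) = 1 := by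
      rw [sum_pow_mul_eq_add_pow]
      rw [add_sub_cancel, one_pow]
    calc _ ≤ ∑ T ∈ (S.erase e).powerset, (ρ ^ T.card * (1 - ρ) ^ ((S.erase e).card - T.card)) *
          ((1 - ε) * (2 * ρ * (1 - ρ))) := ?_
      _ = (1 - ε) * (2 * ρ * (1 - ρ)) := by rw [← sum_mul, hbin, one_mul]
    refine sum_le_sum fun T hT => ?_
    rw [mem_powerset] at hT
    have hTS : T ⊆ S := hT.trans (erase_subset e S)
    have huT : u ∉ T := fun h => huS (hTS h)
    have heT : e ∉ T := fun h => notMem_erase e S (hT h)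
    have heuT : e ∉ insert u T := by
      rw [mem_insert]
      rintro (h | h)
      · exact hue h.symm
      · exact heT h
    have z1 : g T = 0 := hgS T hTS
    have z2 : g (insert e T) = 0 := hgS _ (insert_subset he hTS)
    have hle := card_le_card hT
    have k1 : p - (T.card + 1) = ((S.erase e).card - T.card) + 1 := by omega
    have k2 : p - (T.card + 1 + 1) = ((S.erase e).card - T.card) := by omega
    have g1 : g (insert u T) = (ρ ^ T.card * (1 - ρ) ^ ((S.erase e).card - T.card)) *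
        (ρ * (1 - ρ) * GG2_a H d R (insert u T)) := by
      show ρ ^ (insert u T).card * (1 - ρ) ^ (p - (insert u T).card) * _ = _
      rw [card_insert_of_notMem huT, k1]
      ring
    have g2 : g (insert e (insert u T)) = (ρ ^ T.card * (1 - ρ) ^ ((S.erase e).card - T.card)) *
        (ρ ^ 2 * GG2_a H d R (insert e (insert u T))) := by
      show ρ ^ (insert e (insert u T)).card * (1 - ρ) ^ (p - (insert e (insert u T)).card) * _ = _
      rw [card_insert_of_notMem heuT, card_insert_of_notMem huT, k2]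
      ring
    rw [z1, z2, g1, g2]
    have hμ : 0 ≤ ρ ^ T.card * (1 - ρ) ^ ((S.erase e).card - T.card) := by positivity
    have a1 := GG2_a1 (H := H) (d := d) hR0 hR (insert u T)
    have a2 := GG2_a1 (H := H) (d := d) hR0 hR (insert e (insert u T))
    have fin : ρ * (1 - ρ) * GG2_a H d R (insert u T) +
        ρ ^ 2 * GG2_a H d R (insert e (insert u T)) ≤ (1 - ε) * (2 * ρ * (1 - ρ)) := by
      have q1 : ρ * (1 - ρ) * GG2_a H d R (insert u T) ≤ ρ * (1 - ρ) * 1 :=
        mul_le_mul_of_nonneg_left a1 (by positivity)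
      have q2 : ρ ^ 2 * GG2_a H d R (insert e (insert u T)) ≤ ρ ^ 2 * 1 :=
        mul_le_mul_of_nonneg_left a2 (by positivity)
      have q3 : 1 ≤ 2 * (1 - ρ) * (1 - ε) := by nlinarith
      have q4 : ρ * 1 ≤ ρ * (2 * (1 - ρ) * (1 - ε)) := mul_le_mul_of_nonneg_left q3 hρ.le
      nlinarith
    have := mul_le_mul_of_nonneg_left fin hμ
    linarith
  · -- two big elements
    obtain ⟨u, v, huv, huv'⟩ := card_eq_two.1 hn
    have huS : u ∉ S := by
      have : u ∈ univ \ S := by rw [huv']; exact mem_insert_self u {v}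
      exact (mem_sdiff.1 this).2
    have hvS : v ∉ S := by
      have : v ∈ univ \ S := by rw [huv']; exact mem_insert_of_mem (mem_singleton_self v)
      exact (mem_sdiff.1 this).2
    have hU : insert e (insert u (insert v (S.erase e))) = univ := by
      rw [Finset.insert_comm, Finset.insert_comm e v, heS]
      ext x
      simp only [mem_insert, mem_univ, iff_true]
      by_cases hx : x ∈ S
      · exact Or.inr (Or.inr hx)
      · have : x ∈ univ \ S := mem_sdiff.2 ⟨mem_univ x, hx⟩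
        rw [huv', mem_insert, mem_singleton] at this
        rcases this with h | h
        · exact Or.inl h
        · exact Or.inr (Or.inl h)
    have hue : u ≠ e := fun h => huS (h ▸ he)
    have hve : v ≠ e := fun h => hvS (h ▸ he)
    have n1 : v ∉ S.erase e := fun h => hvS (mem_of_mem_erase h)
    have n2 : u ∉ insert v (S.erase e) := by
      rw [mem_insert]
      rintro (h | h)
      · exact huv h
      · exact huS (mem_of_mem_erase h)
    have n3 : e ∉ insert u (insert v (S.erase e)) := by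
      rw [mem_insert, mem_insert]
      rintro (h | h | h)
      · exact hue h.symm
      · exact hve h.symm
      · exact notMem_erase e S h
    rw [← hU, sum_powerset_insert n3, sum_powerset_insert n2, sum_powerset_insert n2,
      sum_powerset_insert n1, sum_powerset_insert n1, sum_powerset_insert n1,
      sum_powerset_insert n1,
      ← sum_add_distrib, ← sum_add_distrib, ← sum_add_distrib, ← sum_add_distrib,
      ← sum_add_distrib, ← sum_add_distrib, ← sum_add_distrib]
    have hbin : ∑ T ∈ (S.erase e).powerset, ρ ^ T.card * (1 - ρ) ^ ((S.erase e).card - T.card) = 1 := by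
      rw [sum_pow_mul_eq_add_pow]
      rw [add_sub_cancel, one_pow]
    calc _ ≤ ∑ T ∈ (S.erase e).powerset, (ρ ^ T.card * (1 - ρ) ^ ((S.erase e).card - T.card)) *
          ((1 - ε) * (2 * ρ * (1 - ρ))) := ?_
      _ = (1 - ε) * (2 * ρ * (1 - ρ)) := by rw [← sum_mul, hbin, one_mul]
    refine sum_le_sum fun T hT => ?_
    rw [mem_powerset] at hT
    have hTS : T ⊆ S := hT.trans (erase_subset e S)
    have huT : u ∉ T := fun h => huS (hTS h)
    have hvT : v ∉ T := fun h => hvS (hTS h)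
    have heT : e ∉ T := fun h => notMem_erase e S (hT h)
    have huvT : u ∉ insert v T := by
      rw [mem_insert]
      rintro (h | h)
      · exact huv h
      · exact huT h
    have heuT : e ∉ insert u T := by
      rw [mem_insert]
      rintro (h | h)
      · exact hue h.symm
      · exact heT h
    have hevT : e ∉ insert v T := by
      rw [mem_insert]
      rintro (h | h)
      · exact hve h.symm
      · exact heT h
    have heuvT : e ∉ insert u (insert v T) := by
      rw [mem_insert]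
      rintro (h | h)
      · exact hue h.symm
      · exact hevT h
    have z1 : g T = 0 := hgS T hTS
    have z2 : g (insert e T) = 0 := hgS _ (insert_subset he hTS)
    have hle := card_le_card hT
    have k1 : p - (T.card + 1) = ((S.erase e).card - T.card) + 2 := by omega
    have k2 : p - (T.card + 1 + 1) = ((S.erase e).card - T.card) + 1 := by omega
    have k3 : p - (T.card + 1 + 1 + 1) = ((S.erase e).card - T.card) := by omega
    have g1 : g (insert v T) = (ρ ^ T.card * (1 - ρ) ^ ((S.erase e).card - T.card)) *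
        (ρ * (1 - ρ) ^ 2 * GG2_a H d R (insert v T)) := by
      show ρ ^ (insert v T).card * (1 - ρ) ^ (p - (insert v T).card) * _ = _
      rw [card_insert_of_notMem hvT, k1]
      ring
    have g2 : g (insert u T) = (ρ ^ T.card * (1 - ρ) ^ ((S.erase e).card - T.card)) *
        (ρ * (1 - ρ) ^ 2 * GG2_a H d R (insert u T)) := by
      show ρ ^ (insert u T).card * (1 - ρ) ^ (p - (insert u T).card) * _ = _
      rw [card_insert_of_notMem huT, k1]
      ring
    have g3 : g (insert u (insert v T)) = (ρ ^ T.card * (1 - ρ) ^ ((S.erase e).card - T.card)) *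
        (ρ ^ 2 * (1 - ρ) * GG2_a H d R (insert u (insert v T))) := by
      show ρ ^ (insert u (insert v T)).card * (1 - ρ) ^ (p - (insert u (insert v T)).card) * _ = _
      rw [card_insert_of_notMem huvT, card_insert_of_notMem hvT, k2]
      ring
    have g4 : g (insert e (insert v T)) = (ρ ^ T.card * (1 - ρ) ^ ((S.erase e).card - T.card)) *
        (ρ ^ 2 * (1 - ρ) * GG2_a H d R (insert e (insert v T))) := by
      show ρ ^ (insert e (insert v T)).card * (1 - ρ) ^ (p - (insert e (insert v T)).card) * _ = _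
      rw [card_insert_of_notMem hevT, card_insert_of_notMem hvT, k2]
      ring
    have g5 : g (insert e (insert u T)) = (ρ ^ T.card * (1 - ρ) ^ ((S.erase e).card - T.card)) *
        (ρ ^ 2 * (1 - ρ) * GG2_a H d R (insert e (insert u T))) := by
      show ρ ^ (insert e (insert u T)).card * (1 - ρ) ^ (p - (insert e (insert u T)).card) * _ = _
      rw [card_insert_of_notMem heuT, card_insert_of_notMem huT, k2]
      ring
    have g6 : g (insert e (insert u (insert v T))) =
        (ρ ^ T.card * (1 - ρ) ^ ((S.erase e).card - T.card)) *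
        (ρ ^ 3 * GG2_a H d R (insert e (insert u (insert v T)))) := by
      show ρ ^ (insert e (insert u (insert v T))).card *
        (1 - ρ) ^ (p - (insert e (insert u (insert v T))).card) * _ = _
      rw [card_insert_of_notMem heuvT, card_insert_of_notMem huvT, card_insert_of_notMem hvT, k3]
      ring
    rw [z1, z2, g1, g2, g3, g4, g5, g6]
    have hμ : 0 ≤ ρ ^ T.card * (1 - ρ) ^ ((S.erase e).card - T.card) := by positivity
    have i1 : insert v T ∩ S = T := by
      rw [insert_inter_of_notMem hvS, inter_eq_left.2 hTS]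
    have i2 : insert u T ∩ S = T := by
      rw [insert_inter_of_notMem huS, inter_eq_left.2 hTS]
    have i3 : insert u (insert v T) ∩ S = T := by
      rw [insert_inter_of_notMem huS, i1]
    have i4 : insert e (insert v T) ∩ S = insert e T := by
      rw [insert_inter_of_mem he, i1]
    have i5 : insert e (insert u T) ∩ S = insert e T := by
      rw [insert_inter_of_mem he, i2]
    have i6 : insert e (insert u (insert v T)) ∩ S = insert e T := by
      rw [insert_inter_of_mem he, i3]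
    have s1 : insert v T ⊂ insert u (insert v T) := ssubset_insert huvT
    have s2 : insert u T ⊂ insert u (insert v T) := by
      rw [Finset.insert_comm]
      refine ssubset_insert ?_
      rw [mem_insert]
      rintro (h | h)
      · exact huv h.symm
      · exact hvT h
    have s3 : insert e (insert v T) ⊂ insert e (insert u (insert v T)) := by
      rw [Finset.insert_comm e u]
      refine ssubset_insert ?_
      rw [mem_insert]
      rintro (h | h)
      · exact hue h
      · exact huvT h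
    have s4 : insert e (insert u T) ⊂ insert e (insert u (insert v T)) := by
      rw [Finset.insert_comm u v, Finset.insert_comm e v]
      refine ssubset_insert ?_
      rw [mem_insert, mem_insert]
      rintro (h | h | h)
      · exact hve h
      · exact huv h.symm
      · exact hvT h
    have fin := GG2_two (GG2_a H d R (insert v T)) (GG2_a H d R (insert u T))
      (GG2_a H d R (insert u (insert v T))) (GG2_a H d R (insert e (insert v T)))
      (GG2_a H d R (insert e (insert u T))) (GG2_a H d R (insert e (insert u (insert v T))))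
      ρ ε R hε h1 h2 hR0 hR1 (GG2_a1 hR0 hR _) (GG2_a1 hR0 hR _) (GG2_a1 hR0 hR _)
      (GG2_a1 hR0 hR _) (GG2_a1 hR0 hR _) (GG2_a1 hR0 hR _)
      (GG2_aa hH (i1.trans i3.symm) s1) (GG2_aa hH (i2.trans i3.symm) s2)
      (GG2_aa hH (i4.trans i6.symm) s3) (GG2_aa hH (i5.trans i6.symm) s4)
      (GG2_ar hH hR0 hR (ssubset_insert hevT)) (GG2_ar hH hR0 hR (ssubset_insert heuT))
    have := mul_le_mul_of_nonneg_left fin hμ
    linarith

end Pool.Agent.helper26.NM
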